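import Mathlib
import Pool.Agent.TH82.PC.Sharp

/-! For amenable groups the best exponent is `n`: in every cover of an amenable group by `n` sets
some member `A` has all powers `(A A⁻¹) ^ k` with `k ≥ ⌊n / h⌋` equal to one subgroup of index
`h ≤ n`, while `ℤ / 2n` has a partition into `n` cells no cell of which has `(A A⁻¹) ^ k`, `k < n`,
equal to a subgroup of index at most `n`. -/

set_option autoImplicit false

open scoped Pointwise

namespace Pool.Agent.Results.MP_bb8083_al.AmenableSharp

open Pool.Agent.TH82.PC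

/-- `G` carries a left-invariant finitely additive probability measure defined on all subsets. -/
def IsAmenable (G : Type*) [Group G] : Prop :=
  ∃ μ : Set G → ℝ, (∀ s, 0 ≤ μ s) ∧ μ Set.univ = 1 ∧
    (∀ s t, Disjoint s t → μ (s ∪ t) = μ s + μ t) ∧
    ∀ (g : G) (s : Set G), μ ((fun x => g * x) '' s) = μ s

/-- Finite groups are amenable. -/
theorem isAmenable_of_finite (G : Type*) [Group G] [Finite G] : IsAmenable G := by
  have hpos : (0 : ℝ) < Nat.card G := by exact_mod_cast Nat.card_pos
  refine ⟨fun s => (s.ncard : ℝ) / Nat.card G, fun s => by positivity, ?_, ?_, ?_⟩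
  · simp only [Set.ncard_univ]
    exact div_self hpos.ne'
  · intro s t hst
    simp only
    rw [Set.ncard_union_eq hst (Set.toFinite s) (Set.toFinite t)]
    push_cast
    ring
  · intro g s
    simp only
    rw [Set.ncard_image_of_injective s (mul_right_injective g)]

universe u

theorem result :
    (∀ (G : Type u) [Group G], IsAmenable G → ∀ (n : ℕ) (A : Fin n → Set G),
      (⋃ i, A i) = Set.univ →
      ∃ i : Fin n, ∃ H : Subgroup G, H.index ≠ 0 ∧ H.index ≤ n ∧
        ∀ k : ℕ, n / H.index ≤ k → ((A i * (A i)⁻¹) ^ k : Set G) = (H : Set G)) ∧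
    (∀ n : ℕ, 0 < n → IsAmenable (Multiplicative (ZMod (2 * n))) ∧
      ∃ A : Fin n → Set (Multiplicative (ZMod (2 * n))),
        Pairwise (fun i j => Disjoint (A i) (A j)) ∧ (⋃ i, A i) = Set.univ ∧
        ∀ (i : Fin n) (k : ℕ), k < n → ∀ H : Subgroup (Multiplicative (ZMod (2 * n))),
          H.index ≤ n →
            ((A i * (A i)⁻¹) ^ k : Set (Multiplicative (ZMod (2 * n)))) ≠ (H : Set _)) := by
  refine ⟨?_, ?_⟩
  · rintro G _ ⟨μ, h0, h1, hadd, hinv⟩ n A hA
    exact cover_mean h0 h1 hadd hinv A hA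
  · intro n hn
    have : NeZero (2 * n) := ⟨by omega⟩
    obtain ⟨A, hA, hd, hs⟩ := sharp n hn
    exact ⟨isAmenable_of_finite _, A, fun i j hij => hd i j hij, hA, hs⟩

end Pool.Agent.Results.MP_bb8083_al.AmenableSharp
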