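import Mathlib
import Pool.Agent.TH82.PC.Am

/-! In every cover (in particular, partition) of a group by `n` sets some member `A` has all powers
`(A A⁻¹) ^ k`, from a linear exponent on, equal to one subgroup of index `h ≤ n`: the exponent
`⌊3 ⌊n / h⌋ / 2⌋ + 1` suffices for all `n`, and `⌊n / h⌋` suffices for `n ≤ 2`. -/

set_option autoImplicit false

open scoped Pointwise

namespace Pool.Agent.Results.MP_bb8083_al.LinearExponent

open Pool.Agent.TH82.PC

theorem result {G : Type*} [Group G] (n : ℕ) (A : Fin n → Set G) (hA : (⋃ i, A i) = Set.univ) :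
    ∃ i : Fin n, ∃ H : Subgroup G, H.index ≠ 0 ∧ H.index ≤ n ∧
      ∀ k : ℕ, (if n ≤ 2 then n / H.index else 3 * (n / H.index) / 2 + 1) ≤ k →
        ((A i * (A i)⁻¹) ^ k : Set G) = (H : Set G) := by
  by_cases hn : n ≤ 2
  · simp only [hn, if_true]
    interval_cases n
    · have h : (1 : G) ∈ ⋃ i, A i := by rw [hA]; trivial
      obtain ⟨i, -⟩ := Set.mem_iUnion.1 h
      exact i.elim0
    · exact cover_one A hA
    · exact cover_two A hA
  · simp only [hn, if_false]
    exact cover_general n A hA

end Pool.Agent.Results.MP_bb8083_al.LinearExponent
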